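import Mathlib

namespace Pool.Agent.Results.MP_617207_lc.No
open Finset SimpleGraph Classical

section
variable {V : Type} (G : SimpleGraph V) (len : Sym2 V → ℝ)

/-- `p` is a shortest path between its ends for the lengths `len`. -/
def Sh {s t : V} (p : G.Walk s t) : Prop :=
  p.IsPath ∧ ∀ q : G.Walk s t, q.IsPath → (p.edges.map len).sum ≤ (q.edges.map len).sum

/-- Any two vertices of one component are joined by a unique shortest path. -/
def Uniq : Prop := ∀ s t, G.Reachable s t → ∃! p : G.Walk s t, Sh G len p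

/-- `e` is a bottleneck edge of the shortest path from `s` to `t` for the capacities `c`. -/
def Bot (c : Sym2 V → ℝ) (s t : V) (e : Sym2 V) : Prop :=
  ∃ p : G.Walk s t, Sh G len p ∧ e ∈ p.edges ∧ ∀ e' ∈ p.edges, e' ≠ e → c e < c e'

/-- The edges revealed by the vantage points in `S`. -/
def R (c : Sym2 V → ℝ) (S : Set V) : Set (Sym2 V) := {e | ∃ s ∈ S, ∃ t, Bot G len c s t e}

/-- What is learned from the vantage point `s`: for every `t` the bottleneck edge and its
capacity. -/
noncomputable def obs (c : Sym2 V → ℝ) (s : V) : V → Option (Sym2 V × ℝ) := fun t =>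
  if h : ∃ e, Bot G len c s t e then some (h.choose, c h.choose) else none

/-- Everything learned (latest first) after `i` choices of the adaptive algorithm `A`, which maps
what it has learned to its next vantage point. -/
noncomputable def hist (A : List (V → Option (Sym2 V × ℝ)) → V) (c : Sym2 V → ℝ) :
    ℕ → List (V → Option (Sym2 V × ℝ))
  | 0 => []
  | i + 1 => obs G len c (A (hist A c i)) :: hist A c i

/-- The first `m` vantage points of `A` (repetitions allowed). -/
def chosen (A : List (V → Option (Sym2 V × ℝ)) → V) (c : Sym2 V → ℝ) (m : ℕ) : Set V :=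
  {v | ∃ i < m, v = A (hist G len A c i)}

def touch (Q : Finset V) (e : Sym2 V) : Prop := ∃ u ∈ Q, u ∈ e

def Compat (i : ℕ) (Q : Finset V) (a lev : Sym2 V → ℕ) : Prop :=
  ∀ e, (touch Q e → lev e = a e ∧ a e < i) ∧ (¬ touch Q e → i ≤ lev e)

def cap (fr : Sym2 V → ℝ) (lev : Sym2 V → ℕ) : Sym2 V → ℝ := fun e => lev e + fr e

variable {G len} {fr : Sym2 V → ℝ}

lemma cap_lt (hf : ∀ e, 0 < fr e ∧ fr e < 1) {lev lev' : Sym2 V → ℕ} {e e'}
    (h : lev e < lev' e') : cap fr lev e < cap fr lev' e' := by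
  have : (lev e : ℝ) + 1 ≤ lev' e' := by exact_mod_cast h
  unfold cap
  linarith [hf e, hf e']

lemma bot_touch (hf : ∀ e, 0 < fr e ∧ fr e < 1) {i Q a lev} (h : Compat i Q a lev) {u t : V}
    (hu : u ∈ Q) {e} (hb : Bot G len (cap fr lev) u t e) : touch Q e := by
  obtain ⟨p, -, h1, h2⟩ := hb
  cases p with
  | nil => simp at h1
  | @cons _ v _ hadj p =>
    by_contra hc
    have ht : touch Q s(u, v) := ⟨u, hu, by simp⟩
    have := h2 s(u, v) (by simp) (fun h' => hc (h' ▸ ht))
    have h3 := (h _).1 ht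
    have h4 := (h _).2 hc
    linarith [cap_lt hf (lev := lev) (lev' := lev) (e := s(u, v)) (e' := e) (by omega)]

lemma bot_congr (hf : ∀ e, 0 < fr e ∧ fr e < 1) {i Q a lev lev'} (h : Compat i Q a lev)
    (h' : Compat i Q a lev') {u t : V} (hu : u ∈ Q) {e} (hb : Bot G len (cap fr lev) u t e) :
    Bot G len (cap fr lev') u t e ∧ cap fr lev e = cap fr lev' e := by
  have ht := bot_touch hf h hu hb
  have e1 : cap fr lev e = cap fr lev' e := by
    simp only [cap, ((h _).1 ht).1, ((h' _).1 ht).1]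
  obtain ⟨p, h0, h1, h2⟩ := hb
  refine ⟨⟨p, h0, h1, fun e' he' hne => ?_⟩, e1⟩
  by_cases ht' : touch Q e'
  · have := h2 e' he' hne
    simp only [cap, ((h _).1 ht).1, ((h' _).1 ht).1, ((h _).1 ht').1, ((h' _).1 ht').1] at this ⊢
    exact this
  · have := (h' _).1 ht
    have := (h' _).2 ht'
    exact cap_lt hf (by omega)

lemma obs_congr (hf : ∀ e, 0 < fr e ∧ fr e < 1) {i Q a lev lev'} (h : Compat i Q a lev)
    (h' : Compat i Q a lev') {u : V} (hu : u ∈ Q) :
    obs G len (cap fr lev) u = obs G len (cap fr lev') u := by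
  funext t
  have e1 : Bot G len (cap fr lev) u t = Bot G len (cap fr lev') u t :=
    funext fun e => propext ⟨fun hb => (bot_congr hf h h' hu hb).1,
      fun hb => (bot_congr hf h' h hu hb).1⟩
  have e2 : ∀ e, Bot G len (cap fr lev') u t e → cap fr lev e = cap fr lev' e :=
    fun e hb => (bot_congr hf h' h hu hb).2.symm
  unfold obs
  generalize Bot G len (cap fr lev) u t = P at e1
  subst e1
  split_ifs with hh
  · rw [e2 _ hh.choose_spec]
  · rfl

lemma adversary (hf : ∀ e, 0 < fr e ∧ fr e < 1) (A : List (V → Option (Sym2 V × ℝ)) → V)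
    (m : ℕ) : ∃ (Q : Finset V) (a : Sym2 V → ℕ) (h : List (V → Option (Sym2 V × ℝ))),
      #Q ≤ m ∧ (∀ e, touch Q e → a e < m) ∧ ∀ lev, Compat m Q a lev →
        hist G len A (cap fr lev) m = h ∧ chosen G len A (cap fr lev) m ⊆ Q := by
  induction m with
  | zero => exact ⟨∅, fun _ => 0, [], by simp, by simp [touch], fun lev _ => ⟨rfl, by simp [chosen]⟩⟩
  | succ m ih =>
    obtain ⟨Q, a, h, h1, h2, h3⟩ := ih
    let a' : Sym2 V → ℕ := fun e => if touch Q e then a e else m
    have ha' : ∀ e, a' e < m + 1 := fun e => by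
      simp only [a']; split_ifs with h
      · exact (h2 e h).trans (Nat.lt_succ_self _)
      · exact Nat.lt_succ_self _
    let l0 : Sym2 V → ℕ := fun e => if touch (insert (A h) Q) e then a' e else m + 1
    have hl0 : Compat (m + 1) (insert (A h) Q) a' l0 := fun e =>
      ⟨fun ht => ⟨if_pos ht, ha' e⟩, fun ht => (if_neg ht).ge⟩
    refine ⟨insert (A h) Q, a', obs G len (cap fr l0) (A h) :: h,
      (card_insert_le _ _).trans (by omega), fun e _ => ha' e, fun lev hl => ?_⟩
    have hc : Compat m Q a lev := by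
      intro e
      refine ⟨fun ht => ?_, fun ht => ?_⟩
      · obtain ⟨u, hu, hue⟩ := id ht
        have := ((hl e).1 ⟨u, mem_insert_of_mem hu, hue⟩).1
        simp only [a', if_pos ht] at this
        exact ⟨this, h2 e ht⟩
      · by_cases ht' : touch (insert (A h) Q) e
        · have := ((hl e).1 ht').1
          simp only [a', if_neg ht] at this
          omega
        · have := (hl e).2 ht'
          omega
    obtain ⟨k1, k2⟩ := h3 lev hc
    refine ⟨?_, ?_⟩
    · simp only [hist, k1]
      rw [obs_congr hf hl hl0 (mem_insert_self _ _)]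
    · rintro v ⟨i, hi, rfl⟩
      rcases Nat.lt_succ_iff_lt_or_eq.1 hi with hi | rfl
      · exact mem_coe.2 (mem_insert_of_mem (k2 ⟨i, hi, rfl⟩))
      · rw [k1]; exact mem_coe.2 (mem_insert_self _ _)

lemma path_ext {s t : V} (p q : G.Walk s t) (hp : p.IsPath) (hq : q.IsPath)
    (h : ∀ e, e ∈ p.edges ↔ e ∈ q.edges) : p = q := by
  induction p with
  | nil => exact (Walk.isPath_iff_eq_nil.1 hq).symm
  | @cons s a t hadj p ih =>
    cases q with
    | nil => simpa using h s(s, a)
    | @cons _ b _ hadj' q =>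
      have e1 : a = b := by
        simpa using hq.eq_snd_of_mem_edges ((h s(s, a)).1 (by simp))
      subst e1
      have n1 := hp.isTrail.edges_nodup
      have n2 := hq.isTrail.edges_nodup
      simp only [Walk.edges_cons, List.nodup_cons, List.mem_cons] at n1 n2 h
      rw [ih q hp.of_cons hq.of_cons fun e => ⟨fun he => ((h e).1 (Or.inr he)).resolve_left
        fun h' => n1.1 (h' ▸ he), fun he => ((h e).2 (Or.inr he)).resolve_left
        fun h' => n2.1 (h' ▸ he)⟩]

variable [Fintype V]

noncomputable def idx (e : Sym2 V) : ℕ := Fintype.equivFin (Sym2 V) e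
noncomputable def NN (V : Type) [Fintype V] : ℕ := Fintype.card (Sym2 V)
noncomputable def L (e : Sym2 V) : ℕ := 2 ^ (NN V + 1) + 2 ^ idx e

lemma idx_lt (e : Sym2 V) : idx e < NN V := (Fintype.equivFin (Sym2 V) e).2
lemma idx_inj : Function.Injective (idx : Sym2 V → ℕ) :=
  fun _ _ h => (Fintype.equivFin (Sym2 V)).injective (Fin.ext h)

lemma sumL (l : List (Sym2 V)) : (l.map fun e => (L e : ℝ)).sum =
    ((l.length * 2 ^ (NN V + 1) + (l.map fun e => 2 ^ idx e).sum : ℕ) : ℝ) := by
  induction l with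
  | nil => simp
  | cons e l ih =>
    rw [List.map_cons, List.sum_cons, ih, ← Nat.cast_add, Nat.cast_inj]
    simp only [List.map_cons, List.sum_cons, List.length_cons, L]
    ring

lemma sumP (l : List (Sym2 V)) (h : l.Nodup) :
    (l.map fun e => 2 ^ idx e).sum = ∑ i ∈ l.toFinset.image idx, 2 ^ i := by
  rw [sum_image fun _ _ _ _ h => idx_inj h, List.sum_toFinset _ h]

lemma uniq : Uniq G fun e => (L e : ℝ) := by
  intro s t hr
  obtain ⟨p0, hp0⟩ := hr.exists_isPath
  obtain ⟨p, hp, hmin⟩ := (measure fun p : G.Walk s t =>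
    p.edges.length * 2 ^ (NN V + 1) + (p.edges.map fun e => 2 ^ idx e).sum).wf.has_min
    {p | p.IsPath} ⟨p0, hp0⟩
  have hS : Sh G (fun e => (L e : ℝ)) p := ⟨hp, fun q hq => by
    rw [sumL, sumL]; exact_mod_cast not_lt.1 (hmin q hq)⟩
  refine ⟨p, hS, fun q hq => path_ext _ _ hq.1 hp ?_⟩
  have e1 := le_antisymm (hq.2 p hp) (hS.2 q hq.1)
  rw [sumL, sumL, Nat.cast_inj, sumP _ hq.1.isTrail.edges_nodup,
    sumP _ hS.1.isTrail.edges_nodup] at e1
  have b : ∀ l : List (Sym2 V), ∑ i ∈ l.toFinset.image idx, 2 ^ i < 2 ^ (NN V + 1) := fun l =>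
    Nat.geomSum_lt le_rfl fun k hk => by
      obtain ⟨e, -, rfl⟩ := mem_image.1 hk
      exact (idx_lt e).trans (Nat.lt_succ_self _)
  have e2 := congrArg (· % 2 ^ (NN V + 1)) e1
  simp only [Nat.mul_add_mod_self_right, Nat.mod_eq_of_lt (b _)] at e2
  have e3 := image_injective idx_inj (geomSum_injective le_rfl e2)
  intro e
  rw [← List.mem_toFinset, e3, List.mem_toFinset]

end

/-- Points and non-vertical lines of the plane over `ZMod p`. -/
abbrev PL (p : ℕ) := (ZMod p × ZMod p) ⊕ (ZMod p × ZMod p)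

def rel (p : ℕ) : PL p → PL p → Prop
  | .inl P, .inr l => P.2 = l.1 * P.1 + l.2
  | _, _ => False

def Gr (p : ℕ) : SimpleGraph (PL p) := fromRel (rel p)

def nb {p : ℕ} : PL p → ZMod p → PL p
  | .inl P, z => .inr (z, P.2 - z * P.1)
  | .inr l, z => .inl (z, l.1 * z + l.2)

lemma adj_nb {p : ℕ} {u v : PL p} (h : (Gr p).Adj u v) : ∃ z, v = nb u z := by
  rcases u with P | l <;> rcases v with P' | l' <;> simp [Gr, rel] at h
  · exact ⟨l'.1, by simp [nb, h]⟩
  · exact ⟨P'.1, by simp [nb, ← h]⟩

lemma sh_two {p : ℕ} [Fact p.Prime] (l : ZMod p × ZMod p) {x x' : ZMod p} (hx : x ≠ x') :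
    ∃ w : (Gr p).Walk (nb (.inr l) x) (nb (.inr l) x'), Sh (Gr p) (fun e => (L e : ℝ)) w ∧
      w.edges = [s(nb (.inr l) x, .inr l), s(.inr l, nb (.inr l) x')] := by
  have a1 : (Gr p).Adj (nb (.inr l) x) (.inr l) := by simp [Gr, rel, nb]
  have a2 : (Gr p).Adj (.inr l) (nb (.inr l) x') := by simp [Gr, rel, nb]
  refine ⟨.cons a1 (.cons a2 .nil), ⟨by simp [nb, hx], fun q hq0 => ?_⟩, rfl⟩
  clear hq0
  simp only [nb] at q a1 a2 ⊢
  cases hq : q.edges.length with
  | zero =>
    have := Walk.eq_of_length_eq_zero (p := q) (by simpa using hq)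
    simp [hx] at this
  | succ k =>
    cases k with
    | zero =>
      have := Walk.adj_of_length_eq_one (p := q) (by simpa using hq)
      simp [Gr, rel] at this
    | succ k =>
      cases k with
      | zero =>
        cases q with
        | nil => simp at hq
        | @cons _ v _ b1 q =>
          rcases v with P | l'
          · simp [Gr, rel] at b1
          cases q with
          | cons b2 q =>
            cases q with
            | cons b3 q => simp at hq
            | nil =>
              · have c1 : l.1 * x + l.2 = l'.1 * x + l'.2 := by simpa [Gr, rel] using b1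
                have c2 : l.1 * x' + l.2 = l'.1 * x' + l'.2 := by simpa [Gr, rel] using b2
                have c3 : l.1 = l'.1 := by
                  have : (l.1 - l'.1) * (x - x') = 0 := by linear_combination c1 - c2
                  exact sub_eq_zero.1 ((mul_eq_zero.1 this).resolve_right (sub_ne_zero.2 hx))
                have c4 : l = l' := Prod.ext c3 (by rw [c3] at c1; exact add_left_cancel c1)
                subst c4
                exact le_rfl
      | succ k =>
        rw [sumL, sumL, hq, Nat.cast_le]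
        have b : ∀ e : Sym2 (PL p), 2 ^ idx e ≤ 2 ^ NN (PL p) := fun e =>
          Nat.pow_le_pow_right (by norm_num) (idx_lt e).le
        simp only [Walk.edges_cons, Walk.edges_nil, List.length_cons, List.length_nil,
          List.map_cons, List.map_nil, List.sum_cons, List.sum_nil, pow_succ]
        nlinarith [b s(Sum.inl (x, l.1 * x + l.2), Sum.inr l),
          b s(Sum.inr l, Sum.inl (x', l.1 * x' + l.2)), Nat.zero_le (k * 2 ^ NN (PL p)),
          Nat.zero_le (List.map (fun e => 2 ^ idx e) q.edges).sum]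

theorem result (p : ℕ) (hp : p.Prime) :
    ∃ (V : Type) (_ : Fintype V) (G : SimpleGraph V) (len : Sym2 V → ℝ),
      Fintype.card V = 2 * p ^ 2 ∧ (∀ e, 0 < len e) ∧ Uniq G len ∧
      ∀ A m, 8 * m < Fintype.card V → ∃ c : Sym2 V → ℝ, (∀ e, 0 < c e) ∧ c.Injective ∧
        ∃ S : Finset V, #S = p ∧ (R G len c (chosen G len A c m)).ncard < (R G len c S).ncard := by
  haveI : Fact p.Prime := ⟨hp⟩
  have hcard : Fintype.card (PL p) = 2 * p ^ 2 := by simp [PL, ZMod.card]; ring
  refine ⟨PL p, inferInstance, Gr p, fun e => (L e : ℝ), hcard,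
    fun e => by unfold L; positivity, uniq, fun A m hm => ?_⟩
  rw [hcard] at hm
  let fr : Sym2 (PL p) → ℝ := fun e => (idx e + 1) / (NN (PL p) + 1)
  have hf : ∀ e, 0 < fr e ∧ fr e < 1 := fun e => ⟨by positivity, by
    rw [div_lt_one (by positivity)]; exact_mod_cast Nat.succ_lt_succ (idx_lt e)⟩
  obtain ⟨Q, a, h, h1, h2, h3⟩ := adversary (G := Gr p) (len := fun e => (L e : ℝ)) hf A m
  obtain ⟨x₀, hx₀⟩ : ∃ x₀ : ZMod p, p * #{y : ZMod p | Sum.inl (x₀, y) ∈ Q} ≤ m := by
    by_contra hc
    push Not at hc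
    have s1 := sum_lt_sum_of_nonempty (s := univ) univ_nonempty fun x _ => hc x
    rw [← mul_sum, sum_const, card_univ, ZMod.card, smul_eq_mul] at s1
    have s2 : ∑ x : ZMod p, #{y : ZMod p | Sum.inl (x, y) ∈ Q} ≤ #Q := by
      rw [← card_sigma]
      refine card_le_card_of_injOn (fun z => Sum.inl (z.1, z.2)) (fun z hz => by simpa using hz) ?_
      rintro ⟨x, y⟩ _ ⟨x', y'⟩ _ hh
      simp only [Sum.inl.injEq, Prod.mk.injEq] at hh
      obtain ⟨rfl, rfl⟩ := hh
      rfl
    nlinarith [Nat.mul_le_mul_left p (s2.trans h1)]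
  let S : Finset (PL p) := univ.image fun y => Sum.inl (x₀, y)
  let lev : Sym2 (PL p) → ℕ := fun e => if touch Q e then a e else if touch S e then m + 1 else m
  have hl : Compat m Q a lev := fun e => ⟨fun ht => ⟨if_pos ht, h2 e ht⟩, fun ht => by
    simp only [lev, if_neg ht]; split_ifs <;> omega⟩
  refine ⟨cap fr lev, fun e => by unfold cap; linarith [hf e, Nat.cast_nonneg (α := ℝ) (lev e)],
    fun e e' he => ?_, S, ?_, ?_⟩
  · have e1 : lev e = lev e' := by
      rcases lt_trichotomy (lev e) (lev e') with h | h | h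
      · exact absurd he (cap_lt hf h).ne
      · exact h
      · exact absurd he (cap_lt hf h).ne'
    simp only [cap, e1, add_right_inj, fr] at he
    rw [div_left_inj' (by positivity), add_left_inj, Nat.cast_inj] at he
    exact idx_inj he
  · rw [card_image_of_injective _ fun y y' h => by simpa using h, card_univ, ZMod.card]
  have up : (R (Gr p) (fun e => (L e : ℝ)) (cap fr lev)
      (chosen (Gr p) (fun e => (L e : ℝ)) A (cap fr lev) m)).ncard ≤ m * p := by
    have : R (Gr p) (fun e => (L e : ℝ)) (cap fr lev)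
        (chosen (Gr p) (fun e => (L e : ℝ)) A (cap fr lev) m) ⊆
        ((Q ×ˢ (univ : Finset (ZMod p))).image fun z => s(z.1, nb z.1 z.2) : Finset _) := by
      rintro e ⟨s, hs, t, hb⟩
      obtain ⟨u, hu, hue⟩ := bot_touch hf hl ((h3 lev hl).2 hs) hb
      obtain ⟨w, -, hw, -⟩ := hb
      have he := w.edges_subset_edgeSet hw
      obtain ⟨v, rfl⟩ := Sym2.mem_iff_exists.1 hue
      obtain ⟨z, rfl⟩ := adj_nb (u := u) (v := v) he
      exact mem_coe.2 (mem_image.2 ⟨(u, z), by simp [hu], rfl⟩)
    refine (Set.ncard_le_ncard this (finite_toSet _)).trans ?_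
    rw [Set.ncard_coe_finset]
    refine card_image_le.trans ?_
    rw [card_product, card_univ, ZMod.card]
    exact Nat.mul_le_mul_right _ h1
  let Gd : Finset (ZMod p × ZMod p) :=
    {l | Sum.inr l ∉ Q ∧ Sum.inl (x₀, l.1 * x₀ + l.2) ∉ Q}
  have hG : p ^ 2 ≤ #Gd + 2 * m := by
    have b1 : #{l : ZMod p × ZMod p | Sum.inr l ∈ Q} ≤ #Q :=
      card_le_card_of_injOn Sum.inr (fun z hz => by simpa using hz) Sum.inr_injective.injOn
    have b2 : #{l : ZMod p × ZMod p | Sum.inl (x₀, l.1 * x₀ + l.2) ∈ Q} ≤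
        #((univ : Finset (ZMod p)) ×ˢ ({y : ZMod p | Sum.inl (x₀, y) ∈ Q} : Finset _)) := by
      refine card_le_card_of_injOn (fun l => (l.1, l.1 * x₀ + l.2))
        (fun z hz => by simpa using hz) ?_
      rintro ⟨u, v⟩ _ ⟨u', v'⟩ _ hh
      simp only [Prod.mk.injEq] at hh
      obtain ⟨rfl, hh⟩ := hh
      rw [add_left_cancel hh]
    rw [card_product, card_univ, ZMod.card] at b2
    have b3 : (univ : Finset (ZMod p × ZMod p)) ⊆ Gd ∪ (univ.filter (fun l => Sum.inr l ∈ Q) ∪
        univ.filter (fun l => Sum.inl (x₀, l.1 * x₀ + l.2) ∈ Q)) := fun l _ => by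
      simp only [Gd, mem_union, mem_filter, mem_univ, true_and]; tauto
    have b4 := (card_le_card b3).trans ((card_union_le _ _).trans
      (Nat.add_le_add_left (card_union_le _ _) _))
    rw [card_univ, Fintype.card_prod, ZMod.card] at b4
    nlinarith
  have low : #Gd * (p - 1) ≤ (R (Gr p) (fun e => (L e : ℝ)) (cap fr lev) S).ncard := by
    have : (((Gd ×ˢ (univ.erase x₀)).image fun z => s(Sum.inr z.1, nb (.inr z.1) z.2) :
        Finset _) : Set (Sym2 (PL p))) ⊆ R (Gr p) (fun e => (L e : ℝ)) (cap fr lev) S := by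
      intro e he
      obtain ⟨⟨l, x⟩, hz, rfl⟩ := mem_image.1 (mem_coe.1 he)
      simp only [Gd, mem_product, mem_filter, mem_univ, true_and, mem_erase, and_true] at hz
      obtain ⟨w, w1, w2⟩ := sh_two l (Ne.symm hz.2)
      have hs : nb (.inr l) x₀ ∈ S := by simp [S, nb]
      refine ⟨_, hs, _, w, w1, by simp [w2], fun e' he' hne => ?_⟩
      rw [w2] at he'
      simp only [List.mem_cons, List.not_mem_nil, or_false, hne] at he'
      subst he'
      refine cap_lt hf ?_
      have t1 : ¬ touch Q s(nb (.inr l) x₀, .inr l) := by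
        rintro ⟨u, hu, hue⟩
        rcases Sym2.mem_iff.1 hue with rfl | rfl
        · exact hz.1.2 hu
        · exact hz.1.1 hu
      have t2 : touch S s(nb (.inr l) x₀, .inr l) := ⟨_, hs, by simp⟩
      have t3 : ¬ touch S s(Sum.inr l, nb (.inr l) x) := by
        rintro ⟨u, hu, hue⟩
        rcases Sym2.mem_iff.1 hue with rfl | rfl <;> simp [S, nb, Ne.symm hz.2] at hu
      simp only [lev, if_neg t1, if_pos t2, if_neg t3]
      split_ifs with t4
      · exact (h2 _ t4).trans (Nat.lt_succ_self _)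
      · exact Nat.lt_succ_self _
    refine le_trans ?_ (Set.ncard_le_ncard this (Set.toFinite _))
    rw [Set.ncard_coe_finset, card_image_of_injective, card_product,
      card_erase_of_mem (mem_univ _), card_univ, ZMod.card]
    rintro ⟨l, x⟩ ⟨l', x'⟩ hh
    simp only [nb, Sym2.eq, Sym2.rel_iff', Prod.mk.injEq, Sum.inr.injEq, Sum.inl.injEq,
      Prod.swap_prod_mk, reduceCtorEq, false_and, or_false] at hh
    rw [hh.1, hh.2.1]
  refine lt_of_le_of_lt up (lt_of_lt_of_le ?_ low)
  obtain ⟨k, rfl⟩ : ∃ k, p = k + 2 := ⟨p - 2, by have := hp.two_le; omega⟩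
  have : 2 * m < #Gd := by omega
  rw [show k + 2 - 1 = k + 1 by omega]
  nlinarith

end Pool.Agent.Results.MP_617207_lc.No
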